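import Pool.Agent.ASE.Stmts8
import Pool.Agent.Helper89_AT5.CO5
import Pool.Agent.Helper20_PP.Rst

/-!
# Squad ASE, row FXS: the sum of the numbers of fixed characters of `b W`
-/

open scoped BigOperators

noncomputable section

namespace Pool.Agent.PP.SE.H92

open Pool.Agent.Helper51_AWC Pool.Agent.Helper79_WRA Pool.Agent.PP Pool.Agent.PP.KF
open Pool.Agent.PP.K9 Pool.Agent.PP.K9.H97 Pool.Agent.PP.H75 Pool.Agent.PP.T3 Pool.Agent.PP.SO
open Pool.Agent.PP.SD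

attribute [local instance] Ideal.Quotient.field

/-! ## 1. Double counting -/

section count

variable {A X : Type} [Fintype A] [Fintype X] (R : A → X → Prop) {n m : ℕ}

open Classical in
theorem count1 (h1 : ∀ x, (Finset.univ.filter (fun a => R a x)).card = n)
    (h2 : ∀ a, (Finset.univ.filter (R a)).card = m) (f : A → ℕ) (g : X → ℕ)
    (h : ∀ a x, R a x → g x = f a) : n * ∑ x, g x = m * ∑ a, f a := by
  have e1 : n * ∑ x, g x = ∑ x, ∑ a, if R a x then g x else 0 := by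
    rw [Finset.mul_sum]
    refine Finset.sum_congr rfl fun x _ => ?_
    rw [← Finset.sum_filter, Finset.sum_const, h1, smul_eq_mul]
  have e2 : m * ∑ a, f a = ∑ a, ∑ x, if R a x then f a else 0 := by
    rw [Finset.mul_sum]
    refine Finset.sum_congr rfl fun a _ => ?_
    rw [← Finset.sum_filter, Finset.sum_const, h2, smul_eq_mul]
  rw [e1, e2, Finset.sum_comm]
  refine Finset.sum_congr rfl fun a _ => Finset.sum_congr rfl fun x _ => ?_
  by_cases hr : R a x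
  · rw [if_pos hr, if_pos hr, h a x hr]
  · rw [if_neg hr, if_neg hr]

open Classical in
theorem count2 (h1 : ∀ x, (Finset.univ.filter (fun a => R a x)).card = n)
    (h2 : ∀ a, (Finset.univ.filter (R a)).card = m) (f : A → A → ℕ) (g : X → X → ℕ)
    (h : ∀ a x b y, R a x → R b y → g x y = f a b) :
    n * (n * ∑ x, ∑ y, g x y) = m * (m * ∑ a, ∑ b, f a b) := by
  have e : n * ∑ x, n * ∑ y, g x y = m * ∑ a, m * ∑ b, f a b :=
    count1 R h1 h2 _ _ fun a x hr => count1 R h1 h2 _ _ fun b y hs => h a x b y hr hs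
  rw [← Finset.mul_sum, ← Finset.mul_sum] at e
  exact e

end count

section grp

variable {V₀ G : Type} [CommGroup V₀] [Group G] {M : Ideal (integralClosure ℤ ℂ)} [M.IsMaximal]

/-- `x` acts on `i(W)` as `σ` -/
def Rel (B : Bk (FF M) V₀ G) (W : Subgroup V₀) (σ : MulAut V₀) (x : G) : Prop :=
  ∀ w ∈ W, x * B.i w * x⁻¹ = B.i (σ w)

theorem mem_C {B : Bk (FF M) V₀ G} {W : Subgroup V₀} {x : G} :
    x ∈ B.C W ↔ ∀ w ∈ W, x * B.i w * x⁻¹ = B.i w := by
  unfold Bk.C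
  rw [Subgroup.mem_centralizer_iff]
  constructor
  · intro h w hw
    rw [← h (B.i w) (Subgroup.mem_map_of_mem _ hw), mul_inv_cancel_right]
  · rintro h _ ⟨w, hw, rfl⟩
    have := h w hw
    rw [mul_inv_eq_iff_eq_mul] at this
    exact this.symm

theorem rel_mul {B : Bk (FF M) V₀ G} {W : Subgroup V₀} {σ τ : MulAut V₀} {x y : G}
    (hx : Rel B W σ x) (hy : Rel B W τ y) (hτ : ∀ w ∈ W, τ w ∈ W) : Rel B W (σ * τ) (x * y) := by
  intro w hw
  rw [MulAut.mul_apply, ← hx _ (hτ w hw), ← hy w hw]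
  group

theorem rel_inv {B : Bk (FF M) V₀ G} {W : Subgroup V₀} {σ : MulAut V₀} {x : G}
    (hx : Rel B W σ x) (hσ : ∀ w ∈ W, σ⁻¹ w ∈ W) : Rel B W σ⁻¹ x⁻¹ := by
  intro w hw
  have h := hx _ (hσ w hw)
  rw [MulAut.apply_inv_self] at h
  rw [← h]
  group

theorem tt_spec {B : Bk (FF M) V₀ G} {σ : MulAut V₀}
    (h : ∃ t ∈ Tg B.i.range B.g, ∀ v, t * B.i v * t⁻¹ = B.i (σ v)) :
    tt B σ ∈ Tg B.i.range B.g ∧ ∀ v, tt B σ * B.i v * (tt B σ)⁻¹ = B.i (σ v) := by
  unfold tt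
  rw [dif_pos h]
  exact h.choose_spec

theorem ch_conj {B : Bk (FF M) V₀ G} {W : Subgroup V₀} {χ : G → ℂ} (hχ : χ ∈ Ch B W) {c : G}
    (hc : c ∈ B.C W) (z : G) : χ (c * z * c⁻¹) = χ z := by
  by_cases hz : z ∈ B.C W
  · exact irr_conj hχ.2.1 ⟨z, hz⟩ ⟨c, hc⟩
  · rw [hχ.1 z hz, hχ.1]
    intro h
    apply hz
    have := (B.C W).mul_mem ((B.C W).mul_mem ((B.C W).inv_mem hc) h) hc
    have e : c⁻¹ * (c * z * c⁻¹) * c = z := by group
    rwa [e] at this

theorem fix_iff {B : Bk (FF M) V₀ G} {W : Subgroup V₀} {χ : G → ℂ} (hχ : χ ∈ Ch B W)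
    {σ : MulAut V₀} {x : G} (h : (tt B σ)⁻¹ * x ∈ B.C W) :
    (∀ y, χ (x * y * x⁻¹) = χ y) ↔ ac B σ χ = χ := by
  set t := tt B σ with ht
  set c := t⁻¹ * x with hc
  have hx : x = t * c := by rw [hc]; group
  constructor
  · intro h1
    funext z
    show χ (t⁻¹ * z * t) = χ z
    have h2 := h1 (c⁻¹ * (t⁻¹ * z * t) * c)
    have e : x * (c⁻¹ * (t⁻¹ * z * t) * c) * x⁻¹ = z := by
      rw [hx]
      group
    rw [e] at h2
    rw [h2]
    have h3 := ch_conj hχ ((B.C W).inv_mem h) (t⁻¹ * z * t)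
    rw [inv_inv] at h3
    exact h3.symm
  · intro h1 y
    have h2 := congrFun h1 (x * y * x⁻¹)
    have e : ac B σ χ (x * y * x⁻¹) = χ (c * y * c⁻¹) := by
      show χ (t⁻¹ * (x * y * x⁻¹) * t) = χ (c * y * c⁻¹)
      congr 1
      rw [hx]
      group
    rw [e, ch_conj hχ h] at h2
    exact h2.symm

/-- transport of the sets of fixed characters to a subgroup `X ≥ C W` -/
theorem fixset [Finite G] {B : Bk (FF M) V₀ G} {W : Subgroup V₀} (X : Subgroup G)
    (hC : B.C W ≤ X)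
    (hcl : IsCl (fun t : B.C W => B.b W t)) (b : X → FF M) (hb : ∀ h : X, b h = B.b W h)
    (hclX : IsCl b) (x y : X) :
    {χ : X → ℂ | (∀ z, z ∉ (B.C W).subgroupOf X → χ z = 0) ∧
      (fun t : (B.C W).subgroupOf X => χ t) ∈ IrrE M (fun t : (B.C W).subgroupOf X => b t) ∧
      (∀ z, χ (x * z * x⁻¹) = χ z) ∧ ∀ z, χ (y * z * y⁻¹) = χ z}.ncard =
    {χ : G → ℂ | χ ∈ Ch B W ∧ (∀ z, χ ((x : G) * z * (x : G)⁻¹) = χ z) ∧
      ∀ z, χ ((y : G) * z * (y : G)⁻¹) = χ z}.ncard := by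
  classical
  set N := (B.C W).subgroupOf X with hN
  set φ : N ≃* B.C W := Subgroup.subgroupOfEquivOfLe hC with hφ
  set r : (G → ℂ) → (X → ℂ) := fun χ z => χ z with hr
  have hX : ∀ (x : X) (z : G), z ∉ X → (x : G) * z * (x : G)⁻¹ ∉ X := by
    intro x z hz h
    apply hz
    have := X.mul_mem (X.mul_mem (X.inv_mem x.2) h) x.2
    have e : (x : G)⁻¹ * ((x : G) * z * (x : G)⁻¹) * x = z := by group
    rwa [e] at this
  have himg : {χ : X → ℂ | (∀ z, z ∉ N → χ z = 0) ∧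
      (fun t : N => χ t) ∈ IrrE M (fun t : N => b t) ∧
      (∀ z, χ (x * z * x⁻¹) = χ z) ∧ ∀ z, χ (y * z * y⁻¹) = χ z} =
      r '' {χ : G → ℂ | χ ∈ Ch B W ∧ (∀ z, χ ((x : G) * z * (x : G)⁻¹) = χ z) ∧
        ∀ z, χ ((y : G) * z * (y : G)⁻¹) = χ z} := by
    ext χ
    constructor
    · rintro ⟨h1, h2, h3, h4⟩
      set ψ : G → ℂ := fun g => if h : g ∈ X then χ ⟨g, h⟩ else 0 with hψ
      have hψX : ∀ z : X, ψ z = χ z := fun z => by
        rw [hψ]
        simp only [z.2, dif_pos]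
      have hψ0 : ∀ z, z ∉ X → ψ z = 0 := fun z hz => by
        rw [hψ]
        simp only [hz, dif_neg, not_false_iff]
      have hfx : ∀ w : X, (∀ z, χ (w * z * w⁻¹) = χ z) →
          ∀ z, ψ ((w : G) * z * (w : G)⁻¹) = ψ z := by
        intro w hw z
        by_cases hz : z ∈ X
        · have := hw ⟨z, hz⟩
          rw [← hψX, ← hψX] at this
          exact this
        · rw [hψ0 z hz, hψ0 _ (hX w z hz)]
      refine ⟨ψ, ⟨⟨?_, ?_⟩, hfx x h3, hfx y h4⟩, ?_⟩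
      · intro g hg
        by_cases hgX : g ∈ X
        · have e := hψX ⟨g, hgX⟩
          rw [h1 ⟨g, hgX⟩ (fun h => hg h)] at e
          exact e
        · exact hψ0 g hgX
      · have hclN : IsCl (fun t : N => b t) := fun s t => hclX _ _
        have h5 := T5.H89.irrE_equiv φ hclN h2
        have e1 : (fun t : B.C W => ψ t) = fun t => χ (φ.symm t) := by
          funext t
          exact hψX ⟨t, hC t.2⟩
        have e2 : (fun t : B.C W => B.b W t) = fun t => b (φ.symm t) := by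
          funext t
          rw [hb]
          rfl
        rw [e1, e2]
        exact h5
      · funext z
        exact hψX z
    · rintro ⟨ψ, ⟨h1, h3, h4⟩, rfl⟩
      refine ⟨fun z hz => h1.1 z hz, ?_, fun z => h3 z, fun z => h4 z⟩
      have h5 := T5.H89.irrE_equiv φ.symm hcl h1.2
      have e2 : (fun t : N => b t) = fun t => B.b W (φ.symm.symm t) := by
        funext t
        rw [hb]
        rfl
      rw [e2]
      exact h5
  rw [himg, Set.InjOn.ncard_image]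
  intro χ hχ ψ hψ he
  funext g
  by_cases hg : g ∈ X
  · exact congrFun he ⟨g, hg⟩
  · rw [hχ.1.1 g (fun h => hg (hC h)), hψ.1.1 g (fun h => hg (hC h))]

end grp

theorem fxs (xwd : XwdStmt) (lmb : LmbStmt) (f1s : F1sStmt) : FxsStmt := by
  intro ℓ _ M _ hM hℓ V₀ G _ _ _ _ E₀ hFq B hB W hW E₁ hE hSt hEW
  classical
  have hp : ℓ.Prime := Fact.out
  have hWb : W ≠ ⊥ := by
    rintro rfl
    rw [Subgroup.card_bot] at hW
    exact hp.one_lt.ne hW
  have hEi : ∀ σ ∈ E₁, ∀ w ∈ W, σ⁻¹ w ∈ W := fun σ hσ w hw => hEW _ (E₁.inv_mem hσ) w hw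
  set X : Subgroup G := TE B E₁ ⊔ B.C W with hX
  have hCX : B.C W ≤ X := le_sup_right
  have hTX : TE B E₁ ≤ X := le_sup_left
  have hrel : ∀ x ∈ X, ∃ σ ∈ E₁, Rel B W σ x := by
    intro x hx
    rw [hX, ← SetLike.mem_coe, Subgroup.sup_eq_closure, SetLike.mem_coe] at hx
    refine Subgroup.closure_induction (p := fun x _ => ∃ σ ∈ E₁, Rel B W σ x) ?_ ?_ ?_ ?_ hx
    · rintro x (h | h)
      · obtain ⟨-, σ, hσ, h1⟩ := h
        exact ⟨σ, hσ, fun w _ => h1 w⟩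
      · refine ⟨1, E₁.one_mem, fun w hw => ?_⟩
        rw [MulAut.one_apply]
        exact mem_C.1 h w hw
    · exact ⟨1, E₁.one_mem, fun w _ => by rw [one_mul, inv_one, mul_one, MulAut.one_apply]⟩
    · rintro x y - - ⟨σ, hσ, h1⟩ ⟨τ, hτ, h2⟩
      exact ⟨σ * τ, E₁.mul_mem hσ hτ, rel_mul h1 h2 (hEW τ hτ)⟩
    · rintro x - ⟨σ, hσ, h1⟩
      exact ⟨σ⁻¹, E₁.inv_mem hσ, rel_inv h1 (hEi σ hσ)⟩
  have htt : ∀ σ ∈ E₁, tt B σ ∈ Tg B.i.range B.g ∧ ∀ v, tt B σ * B.i v * (tt B σ)⁻¹ = B.i (σ v) :=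
    fun σ hσ => tt_spec (hB.sur σ (hE hσ))
  have htX : ∀ σ ∈ E₁, tt B σ ∈ X := fun σ hσ =>
    hTX ⟨(htt σ hσ).1, σ, hσ, (htt σ hσ).2⟩
  have hrelC : ∀ σ ∈ E₁, ∀ x, Rel B W σ x ↔ (tt B σ)⁻¹ * x ∈ B.C W := by
    intro σ hσ x
    rw [mem_C]
    refine forall_congr' fun w => forall_congr' fun hw => ?_
    have h1 := (htt σ hσ).2 w
    constructor
    · intro h
      have e : (tt B σ)⁻¹ * x * B.i w * ((tt B σ)⁻¹ * x)⁻¹ =
          (tt B σ)⁻¹ * (x * B.i w * x⁻¹) * tt B σ := by group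
      rw [e, h, ← h1]
      group
    · intro h
      rw [← h1]
      have e : x * B.i w * x⁻¹ = tt B σ * ((tt B σ)⁻¹ * x * B.i w * ((tt B σ)⁻¹ * x)⁻¹) *
          (tt B σ)⁻¹ := by group
      rw [e, h]
  -- the datum of `X`
  obtain ⟨hFq1, B', hB', hPr, he', hnor, -, hLam⟩ := xwd ℓ M hM hℓ V₀ G X E₀ hFq B hB W hWb E₁ hE
    hSt hEW X.subtype X.subtype_injective X.range_subtype
  obtain ⟨-, l2, -, l4, -⟩ := lmb ℓ M hM hℓ V₀ X E₁ hFq1 B' hB'.toSb
  have hln := l2 W hWb hnor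
  set k := (IrrE M B'.e).ncard with hk
  have hEs1 : Es E₁ (1 : V₀) = E₁ := by
    ext σ
    exact ⟨fun h => h.1, fun h => ⟨h, map_one σ⟩⟩
  have hEsle : ∀ v : V₀, Es E₁ v ≤ E₁ := fun v σ h => h.1
  have hsum : ∑ᶠ v : V₀, Nat.card (Es E₁ v) * Lam B (Es E₁ v) = Nat.card E₁ * k := by
    have hV : Fintype V₀ := Fintype.ofFinite _
    rw [l4, hln, hLam E₁ le_rfl]
    have e1 : (∑ᶠ v ∈ {v : V₀ | v ≠ 1}, Nat.card (Es E₁ v) * Lam B' (Es E₁ v)) =
        ∑ᶠ v ∈ {v : V₀ | v ≠ 1}, Nat.card (Es E₁ v) * Lam B (Es E₁ v) :=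
      finsum_mem_congr rfl fun v _ => by rw [hLam _ (hEsle v)]
    rw [e1]
    have e2 : {v : V₀ | v ≠ 1} = ((Finset.univ.erase (1 : V₀) : Finset V₀) : Set V₀) := by
      ext v
      simp
    rw [e2, finsum_mem_coe_finset, finsum_eq_sum_of_fintype,
      ← Finset.add_sum_erase _ _ (Finset.mem_univ (1 : V₀)), hEs1]
  rw [hsum]
  -- the subgroup `N`
  set N : Subgroup X := (B.C W).subgroupOf X with hN
  have hNn : N.Normal := by
    refine ⟨fun c hc x => ?_⟩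
    obtain ⟨σ, hσ, h1⟩ := hrel x x.2
    rw [hN, Subgroup.mem_subgroupOf] at hc ⊢
    rw [mem_C] at hc ⊢
    intro w hw
    have h2 := h1 _ (hEi σ hσ w hw)
    rw [MulAut.apply_inv_self] at h2
    have h3 := hc _ (hEi σ hσ w hw)
    show (x : G) * c * (x : G)⁻¹ * B.i w * ((x : G) * c * (x : G)⁻¹)⁻¹ = B.i w
    rw [← h2]
    have e : (x : G) * c * (x : G)⁻¹ * ((x : G) * B.i (σ⁻¹ w) * (x : G)⁻¹) *
        ((x : G) * c * (x : G)⁻¹)⁻¹ = (x : G) * (c * B.i (σ⁻¹ w) * (c : G)⁻¹) * (x : G)⁻¹ := by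
      group
    rw [e, h3]
  have hcyc : ∃ t : X, ∀ x : X, ∃ i : ℕ, (t ^ i)⁻¹ * x ∈ N := by
    set P : Subgroup G := W.map B.i with hP
    have hXn : X ≤ Subgroup.normalizer (P : Set G) := by
      intro x hx
      obtain ⟨σ, hσ, h1⟩ := hrel x hx
      rw [Subgroup.mem_normalizer_iff]
      intro g
      constructor
      · rintro ⟨w, hw, rfl⟩
        rw [h1 w hw]
        exact ⟨σ w, hEW σ hσ w hw, rfl⟩
      · rintro ⟨w, hw, h2⟩
        refine ⟨σ⁻¹ w, hEi σ hσ w hw, ?_⟩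
        have h3 := h1 _ (hEi σ hσ w hw)
        rw [MulAut.apply_inv_self] at h3
        have h4 : x * B.i (σ⁻¹ w) * x⁻¹ = x * g * x⁻¹ := by rw [h3, ← h2]
        exact mul_left_cancel (mul_right_cancel h4)
    have hPc : Nat.card P = ℓ := by
      rw [hP, ← hW]
      exact (Nat.card_congr (W.equivMapOfInjective B.i hB.inj).toEquiv).symm
    have hcP : IsCyclic P := isCyclic_of_prime_card hPc
    have hcA : IsCyclic (MulAut P) := by
      have e := IsCyclic.mulAutMulEquiv P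
      rw [hPc] at e
      exact isCyclic_of_surjective e.symm e.symm.surjective
    set ψ : X →* MulAut P := P.normalizerMonoidHom.comp (Subgroup.inclusion hXn) with hψ
    have hker : ∀ x : X, ψ x = 1 ↔ x ∈ N := by
      intro x
      have h1 : ψ x = 1 ↔ Subgroup.inclusion hXn x ∈ P.normalizerMonoidHom.ker := Iff.rfl
      rw [h1, Subgroup.normalizerMonoidHom_ker]
      rfl
    obtain ⟨⟨_, t, rfl⟩, ht⟩ := IsCyclic.exists_monoid_generator (α := ψ.range)
    refine ⟨t, fun x => ?_⟩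
    obtain ⟨i, hi⟩ := Submonoid.mem_powers_iff _ _ |>.1 (ht ⟨ψ x, x, rfl⟩)
    refine ⟨i, (hker _).1 ?_⟩
    have h2 := congrArg Subtype.val hi
    have h3 : ψ t ^ i = ψ x := h2
    rw [map_mul, map_inv, map_pow, h3, inv_mul_cancel]
  have hb0 : ∀ x : X, x ∉ N → B'.e x = 0 := by
    intro x hx
    rw [he' x]
    exact (hB.lb W).blk.supp _ fun h => hx h
  have hcl : IsCl B'.e := hB'.ld.blk.1.1
  have hclC : IsCl (fun t : B.C W => B.b W t) := (hB.lb W).blk.blk.1.1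
  have hidem : IsIdem (fun t : N => B'.e t) := by
    have h1 := (H20.IsBlk_equiv (Subgroup.subgroupOfEquivOfLe hCX) (hB.lb W).blk.blk).1
    have e1 : (fun t : N => B'.e t) =
        fun t => B.b W ((Subgroup.subgroupOfEquivOfLe hCX t : B.C W) : G) := by
      funext t
      rw [he']
      rfl
    rw [e1]
    exact h1
  have hF := f1s ℓ M hM X N hNn hcyc B'.e hb0 (fun x y => hcl y x) hidem
  -- counting
  have hXf : Fintype X := Fintype.ofFinite _
  have hVf : Finite (MulAut V₀) := by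
    refine Finite.of_injective (fun (σ : MulAut V₀) (v : V₀) => σ v) ?_
    intro σ τ h
    ext v
    exact congrFun h v
  have hEf : Fintype E₁ := Fintype.ofFinite _
  set R : E₁ → X → Prop := fun σ x => Rel B W σ x with hR
  set m := Nat.card (B.C W) with hm
  have c1 : ∀ x, (Finset.univ.filter (fun a => R a x)).card = nS E₀ W := by
    intro x
    obtain ⟨σ, hσ, h1⟩ := hrel x x.2
    have hSf : Fintype (St E₀ W) := Fintype.ofFinite _
    rw [nS, Nat.card_eq_fintype_card, ← Finset.card_univ]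
    symm
    refine Finset.card_bij (fun (τ : St E₀ W) _ => (⟨σ * τ, E₁.mul_mem hσ (hSt τ.2)⟩ : E₁)) ?_ ?_ ?_
    · intro τ _
      rw [Finset.mem_filter]
      refine ⟨Finset.mem_univ _, fun w hw => ?_⟩
      show (x : G) * B.i w * (x : G)⁻¹ = B.i ((σ * (τ : MulAut V₀)) w)
      rw [MulAut.mul_apply, τ.2.2 w hw]
      exact h1 w hw
    · intro τ _ τ' _ h
      have h2 : σ * (τ : MulAut V₀) = σ * τ' := congrArg Subtype.val h
      exact Subtype.ext (mul_left_cancel h2)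
    · intro ρ hρ
      rw [Finset.mem_filter] at hρ
      have h2 : Rel B W ρ x := hρ.2
      have h3 : σ⁻¹ * (ρ : MulAut V₀) ∈ St E₀ W := by
        refine ⟨E₀.mul_mem (E₀.inv_mem (hE hσ)) (hE ρ.2), fun w hw => ?_⟩
        have h4 : B.i ((ρ : MulAut V₀) w) = B.i (σ w) := by rw [← h2 w hw, ← h1 w hw]
        rw [MulAut.mul_apply, hB.inj h4, MulAut.inv_apply_self]
      refine ⟨⟨_, h3⟩, Finset.mem_univ _, ?_⟩
      apply Subtype.ext
      show σ * (σ⁻¹ * (ρ : MulAut V₀)) = ρ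
      group
  have c2 : ∀ a, (Finset.univ.filter (R a)).card = m := by
    intro σ
    have hCf : Fintype (B.C W) := Fintype.ofFinite _
    rw [hm, Nat.card_eq_fintype_card, ← Finset.card_univ]
    symm
    refine Finset.card_bij (fun (c : B.C W) _ => (⟨tt B σ * c, X.mul_mem (htX σ σ.2) (hCX c.2)⟩ : X))
      ?_ ?_ ?_
    · intro c _
      rw [Finset.mem_filter]
      refine ⟨Finset.mem_univ _, (hrelC σ σ.2 _).2 ?_⟩
      show (tt B σ)⁻¹ * (tt B σ * (c : G)) ∈ B.C W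
      rw [inv_mul_cancel_left]
      exact c.2
    · intro c _ c' _ h
      have h2 : tt B σ * (c : G) = tt B σ * c' := congrArg Subtype.val h
      exact Subtype.ext (mul_left_cancel h2)
    · intro x hx
      rw [Finset.mem_filter] at hx
      have h2 := (hrelC σ σ.2 _).1 hx.2
      refine ⟨⟨_, h2⟩, Finset.mem_univ _, ?_⟩
      apply Subtype.ext
      show tt B σ * ((tt B σ)⁻¹ * (x : G)) = x
      rw [mul_inv_cancel_left]
  have hfx : ∀ (σ : E₁) (x : X) (τ : E₁) (y : X), R σ x → R τ y →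
      {χ : X → ℂ | (∀ z, z ∉ N → χ z = 0) ∧
        (fun t : N => χ t) ∈ IrrE M (fun t : N => B'.e t) ∧
        (∀ z, χ (x * z * x⁻¹) = χ z) ∧ ∀ z, χ (y * z * y⁻¹) = χ z}.ncard =
      {χ | χ ∈ Ch B W ∧ ac B σ χ = χ ∧ ac B τ χ = χ}.ncard := by
    intro σ x τ y hx hy
    rw [fixset X hCX hclC B'.e (fun h => he' h) hcl x y]
    congr 1
    ext χ
    refine and_congr_right fun hχ => ?_
    rw [fix_iff hχ ((hrelC σ σ.2 _).1 hx), fix_iff hχ ((hrelC τ τ.2 _).1 hy)]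
  have k2 := count2 R c1 c2 _ _ hfx
  have k1 := count1 R c1 c2 (fun _ => 1) (fun _ => 1) (fun _ _ _ => rfl)
  rw [Finset.sum_const, Finset.sum_const, smul_eq_mul, smul_eq_mul, mul_one, mul_one,
    Finset.card_univ, Finset.card_univ, ← Nat.card_eq_fintype_card,
    ← Nat.card_eq_fintype_card] at k1
  have hNc : Nat.card N = m := Nat.card_congr (Subgroup.subgroupOfEquivOfLe hCX).toEquiv
  rw [finsum_eq_sum_of_fintype, Fintype.sum_prod_type, hNc, ← hk] at hF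
  rw [finsum_eq_sum_of_fintype, Fintype.sum_prod_type]
  dsimp only at hF ⊢
  rw [← hF] at k2
  have hm0 : 0 < m := Nat.card_pos
  set S := ∑ σ : E₁, ∑ τ : E₁, {χ | χ ∈ Ch B W ∧ ac B σ χ = χ ∧ ac B τ χ = χ}.ncard with hS
  have k3 : m * (m * S) = m * (m * (nS E₀ W * (Nat.card E₁ * k))) := by
    rw [← k2]
    have e1 : nS E₀ W * (nS E₀ W * (Nat.card X * m * k)) =
        (nS E₀ W * Nat.card X) * (m * nS E₀ W * k) := by ring
    rw [e1, k1]
    ring
  exact Nat.eq_of_mul_eq_mul_left hm0 (Nat.eq_of_mul_eq_mul_left hm0 k3)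

end Pool.Agent.PP.SE.H92
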